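import Mathlib

/-!
# MP_d439b2_co, EG/Cut: the abstract cut lemma of the elementary end game (helper28)

Positions and cuts are natural numbers; the cut `p` separates the positions `< p` from the positions `≥ p`.
A fold is a triple of sequences: low ends `f` (increasing), high ends `g` (decreasing), exact high cuts `h`.
See `EG/TEXT.md`, section 4.
-/

set_option autoImplicit false

namespace Pool.Agent.MPd439b2.EG

/-- low ends, high ends, exact high cuts -/
structure Fo where
  f : ℕ → ℕ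
  g : ℕ → ℕ
  h : ℕ → ℕ

/-- the subfold with the members `φ 0, φ 1, ..` -/
def Fo.sub (F : Fo) (φ : ℕ → ℕ) : Fo := ⟨fun k => F.f (φ k), fun k => F.g (φ k), fun k => F.h (φ k)⟩

/-- **The rules for folds**: `Φ N F` means that `F` is a fold of size `N` (with the members `k < N`); `one` is the
one-sided rule `(N1'')` -/
structure FoSys (Φ : ℕ → Fo → Prop) (c : ℕ) : Prop where
  sub : ∀ N F, Φ N F → ∀ M φ, (∀ k < M, φ k < N) → (∀ k l, k < l → l < M → φ k < φ l) →
    Φ M (F.sub φ)
  inc : ∀ N F, Φ N F → ∀ k l, k < l → l < N → F.f k < F.f l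
  dec : ∀ N F, Φ N F → ∀ k l, k < l → l < N → F.g l < F.g k
  lt : ∀ N F, Φ N F → ∀ k < N, ∀ l < N, F.f k < F.g l
  hlo : ∀ N F, Φ N F → ∀ k l, k < l → l < N → F.g l < F.h k
  hhi : ∀ N F, Φ N F → ∀ k l, k < l → l < N → F.h l ≤ F.g k
  one : ∀ m T F, c ≤ m → Φ (m + 3) T → Φ c F →
    ¬ ∀ k < c, T.f (m + 2) < F.f k ∧ F.f k < T.h m ∧ T.h m ≤ F.g k

/-- all members of `F` cross the cut `p` -/
def FC (C : ℕ) (F : Fo) (p : ℕ) : Prop := ∀ k < C, F.f k < p ∧ p ≤ F.g k

/-- the folds of size `C` between `lo` and `hi` -/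
def Psi (Φ : ℕ → Fo → Prop) (C lo hi : ℕ) (F : Fo) : Prop := Φ C F ∧ ∀ k < C, lo ≤ F.f k ∧ F.g k < hi

/-- the cut `p` is not fully crossed by folds between `lo` and `hi` -/
def Unc (Φ : ℕ → Fo → Prop) (C lo hi p : ℕ) : Prop := ¬ ∃ F, Psi Φ C lo hi F ∧ FC C F p

open Classical in
/-- the largest cut `≤ p₀` which is not fully crossed -/
noncomputable def ka (Φ : ℕ → Fo → Prop) (C lo hi p₀ : ℕ) : ℕ := Nat.findGreatest (Unc Φ C lo hi) p₀

/-- no fold of size `N` has exactly one end in `I` -/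
def Iso (Φ : ℕ → Fo → Prop) (N : ℕ) (I : ℕ → Prop) : Prop := ∀ F, Φ N F →
  ¬ ((∀ k < N, I (F.f k)) ∧ ∀ k < N, ¬ I (F.g k)) ∧ ¬ ((∀ k < N, ¬ I (F.f k)) ∧ ∀ k < N, I (F.g k))

section

variable {Φ : ℕ → Fo → Prop} {c : ℕ}

theorem FoSys.pre (H : FoSys Φ c) {N M : ℕ} {F : Fo} (h : Φ N F) (hM : M ≤ N) : Φ M F :=
  H.sub N F h M id (fun _ hk => lt_of_lt_of_le hk hM) (fun _ _ h1 _ => h1)

theorem FoSys.shift (H : FoSys Φ c) {N M a : ℕ} {F : Fo} (h : Φ N F) (hM : a + M ≤ N) :
    Φ M (F.sub fun k => a + k) :=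
  H.sub N F h M (fun k => a + k) (fun k hk => by omega) (fun k l h1 _ => by omega)

theorem unc_lo {C lo hi : ℕ} (hC : 0 < C) : Unc Φ C lo hi lo := by
  rintro ⟨F, h1, h2⟩
  have := (h1.2 0 hC).1
  have := (h2 0 hC).1
  omega

theorem unc_zero {C lo hi : ℕ} (hC : 0 < C) : Unc Φ C lo hi 0 := by
  rintro ⟨F, -, h2⟩
  exact absurd (h2 0 hC).1 (Nat.not_lt_zero _)

theorem ka_le (Φ : ℕ → Fo → Prop) (C lo hi p₀ : ℕ) : ka Φ C lo hi p₀ ≤ p₀ := by
  classical
  exact Nat.findGreatest_le _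

theorem ka_unc {C lo hi p₀ : ℕ} (hC : 0 < C) : Unc Φ C lo hi (ka Φ C lo hi p₀) := by
  classical
  exact Nat.findGreatest_spec (P := Unc Φ C lo hi) (Nat.zero_le p₀) (unc_zero hC)

theorem ka_ge {C lo hi p₀ p : ℕ} (hp : p ≤ p₀) (h : Unc Φ C lo hi p) : p ≤ ka Φ C lo hi p₀ := by
  classical
  exact Nat.le_findGreatest hp h

/-- **LEMMA U** -/
theorem lemU (H : FoSys Φ c) {C j₀ lo hi p₀ z : ℕ} (hj : c ≤ j₀) (hj' : j₀ + 3 + c ≤ C)
    (hz : ka Φ C lo hi p₀ < z) (hz' : z ≤ p₀) :
    ∃ T, Psi Φ C lo hi T ∧ (∀ k < C - c, T.f k < z ∧ z ≤ T.g k) ∧ p₀ < T.h j₀ := by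
  have hC : 0 < C := by omega
  have fc : ∀ p, ka Φ C lo hi p₀ < p → p ≤ p₀ → ∃ F, Psi Φ C lo hi F ∧ FC C F p := by
    intro p h1 h2
    by_contra hcon
    have := ka_ge h2 hcon
    omega
  by_contra hcon
  push Not at hcon
  -- all candidates have `h j₀ ≤ p₀`; take one with the largest `h j₀`
  have key : ∀ d, ∀ T, Psi Φ C lo hi T → (∀ k < C - c, T.f k < z ∧ z ≤ T.g k) → p₀ - T.h j₀ = d →
      False := by
    intro d
    induction d using Nat.strong_induction_on with
    | _ d ih =>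
      intro T hT hc hd
      have hle := hcon T hT hc
      have hg : z < T.h j₀ := lt_of_le_of_lt (hc (j₀ + 1) (by omega)).2
        (H.hlo C T hT.1 j₀ (j₀ + 1) (by omega) (by omega))
      obtain ⟨F, hF, hFC⟩ := fc (T.h j₀) (by omega) hle
      have hT3 : Φ (j₀ + 3) T := H.pre hT.1 (by omega)
      -- the last `c` members of `F`
      have h1 := H.one j₀ T (F.sub fun k => (C - c) + k) hj hT3 (H.shift hF.1 (by omega))
      have h2 : F.f (C - c) ≤ T.f (j₀ + 2) ∨ c = 0 := by
        by_contra hn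
        push Not at hn
        refine h1 fun k hk => ⟨?_, ?_, ?_⟩
        · refine lt_of_lt_of_le hn.1 ?_
          rcases Nat.eq_zero_or_pos k with rfl | hk0
          · exact le_rfl
          · exact (H.inc C F hF.1 (C - c) (C - c + k) (by omega) (by omega)).le
        · exact (hFC (C - c + k) (by omega)).1
        · exact (hFC (C - c + k) (by omega)).2
      rcases h2 with h2 | h2
      · have hFk : ∀ k < C - c, F.f k < z ∧ z ≤ F.g k := by
          intro k hk
          have h5 : F.f k < F.f (C - c) := H.inc C F hF.1 k (C - c) hk (by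
            rcases Nat.eq_zero_or_pos c with h0 | h0
            · subst h0
              exfalso
              exact h1 (fun k hk => absurd hk (Nat.not_lt_zero _))
            · omega)
          have h6 := (hc (j₀ + 2) (by omega)).1
          have h7 := (hFC k (by omega)).2
          constructor <;> omega
        refine ih (p₀ - F.h j₀) ?_ F hF hFk rfl
        have h3 : F.g (j₀ + 1) < F.h j₀ := H.hlo C F hF.1 j₀ (j₀ + 1) (by omega) (by omega)
        have h4 := (hFC (j₀ + 1) (by omega)).2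
        have h8 := hcon F hF hFk
        omega
      · subst h2
        exact h1 (fun k hk => absurd hk (Nat.not_lt_zero _))
  obtain ⟨F, hF, hFC⟩ := fc z hz hz'
  exact key _ F hF (fun k hk => hFC k (by omega)) rfl

/-- the isolated interval of the arc `m` of the fold `T` -/
noncomputable def kT (Φ : ℕ → Fo → Prop) (C : ℕ) (T : Fo) (m : ℕ) : ℕ :=
  ka Φ C 0 (T.h m) (T.f (m + 2) + 1)

theorem kT_le (Φ : ℕ → Fo → Prop) (C : ℕ) (T : Fo) (m : ℕ) : kT Φ C T m ≤ T.f (m + 2) + 1 :=
  ka_le _ _ _ _ _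

/-- **(I2)** -/
theorem kT_gt (H : FoSys Φ c) {C m : ℕ} {T : Fo} (hC : 2 * c + 5 ≤ C) (hm : c + 1 ≤ m)
    (hT : Φ (m + 3) T) : T.f (m - c - 1) < kT Φ C T m := by
  by_contra hcon
  push Not at hcon
  have e1 : T.f (m - c - 1) < T.f (m + 2) := H.inc _ T hT _ _ (by omega) (by omega)
  obtain ⟨U, hU, hU1, hU2⟩ := lemU H (C := C) (j₀ := c + 1) (lo := 0) (hi := T.h m)
    (p₀ := T.f (m + 2) + 1) (z := T.f (m - c - 1) + 1) (by omega) (by omega)
    (by unfold kT at hcon; omega) (by omega)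
  refine H.one (c + 1) U (T.sub fun k => (m - c) + k) (by omega) (H.pre hU.1 (by omega))
    (H.shift hT (by omega)) fun k hk => ?_
  have a1 := (hU1 (c + 1 + 2) (by omega)).1
  have a2 : T.f (m - c - 1) < T.f (m - c + k) := H.inc _ T hT _ _ (by omega) (by omega)
  have a3 : T.f (m - c + k) < T.f (m + 2) := H.inc _ T hT _ _ (by omega) (by omega)
  have a4 : U.h (c + 1) ≤ U.g c := H.hhi C U hU.1 c (c + 1) (by omega) (by omega)
  have a5 := (hU.2 c (by omega)).2
  have a6 : T.h m ≤ T.g (m - c + k) := H.hhi _ T hT (m - c + k) m (by omega) (by omega)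
  refine ⟨?_, ?_, ?_⟩
  · show U.f (c + 1 + 2) < T.f (m - c + k)
    omega
  · show T.f (m - c + k) < U.h (c + 1)
    omega
  · show U.h (c + 1) ≤ T.g (m - c + k)
    omega

/-- **(I1)** -/
theorem kT_iso (H : FoSys Φ c) {C m : ℕ} {T : Fo} (hC : 2 * c + 5 ≤ C) (hm : c ≤ m)
    (hT : Φ (m + 3) T) : Iso Φ C fun p => kT Φ C T m ≤ p ∧ p < T.h m := by
  have hc0 : 0 < c := by
    rcases Nat.eq_zero_or_pos c with h | h
    · subst h
      exact absurd (fun k hk => absurd hk (Nat.not_lt_zero _))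
        (H.one m T T hm hT (H.pre hT (by omega)))
    · exact h
  intro F hF
  constructor
  · -- low ends inside, high ends above
    rintro ⟨h1, h2⟩
    have h3 : ∀ k < C, T.h m ≤ F.g k := by
      intro k hk
      by_contra hn
      push Not at hn
      refine h2 k hk ⟨?_, hn⟩
      have := (h1 k hk).1
      have := H.lt C F hF k hk k hk
      omega
    -- fewer than `c` low ends are above `T.f (m + 2)`
    have h4 : F.f (C - c) ≤ T.f (m + 2) := by
      by_contra hn
      push Not at hn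
      refine H.one m T (F.sub fun k => (C - c) + k) hm hT (H.shift hF (by omega)) fun k hk => ?_
      refine ⟨?_, (h1 (C - c + k) (by omega)).2, h3 (C - c + k) (by omega)⟩
      show T.f (m + 2) < F.f (C - c + k)
      rcases Nat.eq_zero_or_pos k with rfl | hk0
      · exact hn
      · have := H.inc C F hF (C - c) (C - c + k) (by omega) (by omega)
        omega
    have h5 : F.f 0 < F.f 1 := H.inc C F hF 0 1 (by omega) (by omega)
    have h6 : F.f 1 < F.f (C - c) := H.inc C F hF 1 (C - c) (by omega) (by omega)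
    have h7 := (h1 0 (by omega)).1
    obtain ⟨U, hU, hU1, hU2⟩ := lemU H (C := C) (j₀ := c + 1) (lo := 0) (hi := T.h m)
      (p₀ := T.f (m + 2) + 1) (z := F.f 1) (by omega) (by omega)
      (by unfold kT at h7; omega) (by omega)
    refine H.one (c + 1) U (F.sub fun k => 1 + k) (by omega) (H.pre hU.1 (by omega))
      (H.shift hF (by omega)) fun k hk => ?_
    have a1 := (hU1 (c + 1 + 2) (by omega)).1
    have a2 : F.f 1 ≤ F.f (1 + k) := by
      rcases Nat.eq_zero_or_pos k with rfl | hk0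
      · exact le_rfl
      · exact (H.inc C F hF 1 (1 + k) (by omega) (by omega)).le
    have a3 : F.f (1 + k) ≤ F.f (C - c) := by
      rcases Nat.lt_or_ge (1 + k) (C - c) with h | h
      · exact (H.inc C F hF _ _ h (by omega)).le
      · have : 1 + k = C - c := by omega
        rw [this]
    have a4 : U.h (c + 1) ≤ U.g c := H.hhi C U hU.1 c (c + 1) (by omega) (by omega)
    have a5 := (hU.2 c (by omega)).2
    have a6 := h3 (1 + k) (by omega)
    refine ⟨?_, ?_, ?_⟩
    · show U.f (c + 1 + 2) < F.f (1 + k)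
      omega
    · show F.f (1 + k) < U.h (c + 1)
      omega
    · show U.h (c + 1) ≤ F.g (1 + k)
      omega
  · -- low ends below, high ends inside
    rintro ⟨h1, h2⟩
    refine ka_unc (Φ := Φ) (C := C) (lo := 0) (hi := T.h m) (p₀ := T.f (m + 2) + 1) (by omega)
      ⟨F, ⟨hF, fun k hk => ⟨Nat.zero_le _, (h2 k hk).2⟩⟩, fun k hk => ?_⟩
    refine ⟨?_, (h2 k hk).1⟩
    by_contra hn
    push Not at hn
    have := (h2 k hk).2
    have := H.lt C F hF k hk k hk
    exact h1 k hk ⟨hn, by omega⟩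

end

end Pool.Agent.MPd439b2.EG
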