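import Pool.Agent.Lib.MP_d439b2_co.X2.Defs
import Pool.Agent.Lib.MP_d439b2_co.FT.T10
import Pool.Agent.Lib.MP_d439b2_co.Rep.RowX3

/-!
# MP_d439b2_co, EG: the elementary end game for `K3:0,1,02` and `J_2` (idea: helper28), definitions (helper29)

A graph `G` and a staircase structure `S` on its vertices which differs from `G` only in pairs of a clique class and a
stable class, at most `b` at every vertex (Theorem ST).  Rails are homogeneous families of vertices, tracks are
sequences of rails in which consecutive rails are not constant to each other.  A set is linked to another one if there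
is a chordless track between them.
-/

set_option autoImplicit false

namespace Pool.Agent.MPd439b2.EG

open Pool.Agent.MPd439b2

variable {V : Type} {n : ℕ}

/-- the exceptional pairs: `G` and `S` differ -/
def Ex (G : SimpleGraph V) (S : X2.St V n) (x y : V) : Prop := ¬ (S.G.Adj x y ↔ G.Adj x y)

/-- twins: two vertices of one class which see the same vertices (for `S`) outside the class.  The classes of twins
are the blocks. -/
def Tw (S : X2.St V n) (x y : V) : Prop :=
  S.c x = S.c y ∧ ∀ z, S.c z ≠ S.c x → (S.G.Adj x z ↔ S.G.Adj y z)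

/-- **The world.** -/
structure Wd (G : SimpleGraph V) (S : X2.St V n) (b m₀ : ℕ) : Prop where
  typ : ∀ x y, Ex G S x y → S.t (S.c x) ≠ S.t (S.c y)
  deg : ∀ x, {y | Ex G S x y}.ncard ≤ b
  sgn : ∀ i, S.t i = true → ∀ j, S.s i j = true
  thin : Rep.NoTP G m₀ true false false
  hH : ¬ IMS (KA 3 3 ![{0}, {1}, {0, 2}]) G Set.univ
  hJ : ¬ IMS (F9.JS ![0, 1, 1] 2) G Set.univ

/-- the relation `P` is homogeneous on the rails `x 0, .., x (m - 1)` with `N` indices: the truth value of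
`P (x i k) (x j l)` depends only on `i`, `j` and on whether `k < l`, `k = l` or `k > l` -/
def Hm (P : V → V → Prop) (m N : ℕ) (x : ℕ → ℕ → V) : Prop :=
  ∀ i < m, ∀ j < m,
    (∀ k l k' l', k < l → l < N → k' < l' → l' < N → (P (x i k) (x j l) ↔ P (x i k') (x j l'))) ∧
    (∀ k l k' l', k < l → l < N → k' < l' → l' < N → (P (x i l) (x j k) ↔ P (x i l') (x j k'))) ∧
    ∀ k < N, ∀ k' < N, (P (x i k) (x j k) ↔ P (x i k') (x j k'))

/-- **Homogeneous systems of rails.**  Different rails may coincide. -/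
structure HS (G : SimpleGraph V) (S : X2.St V n) (m N : ℕ) (x : ℕ → ℕ → V) : Prop where
  g : Hm G.Adj m N x
  s : Hm S.G.Adj m N x
  q : Hm (fun a b => a = b) m N x
  t : Hm (Tw S) m N x
  r : Hm (fun a b => S.ρ a < S.ρ b) m N x
  c : ∀ i < m, ∀ k < N, S.c (x i k) = S.c (x i 0)
  inj : ∀ i < m, ∀ k < N, ∀ l < N, k ≠ l → x i k ≠ x i l

/-- the rails `i` and `j` are different and not constant to each other -/
def Nc (G : SimpleGraph V) (x : ℕ → ℕ → V) (i j : ℕ) : Prop := x i 0 ≠ x j 0 ∧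
  ¬ ((G.Adj (x i 0) (x j 1) ↔ G.Adj (x i 1) (x j 0)) ∧
    (G.Adj (x i 0) (x j 0) ↔ G.Adj (x i 0) (x j 1)))

/-- the rails `i` and `j` form a half graph of `S` -/
def Hf (S : X2.St V n) (x : ℕ → ℕ → V) (i j : ℕ) : Prop :=
  S.c (x i 0) ≠ S.c (x j 0) ∧ ¬ (S.G.Adj (x i 0) (x j 1) ↔ S.G.Adj (x i 1) (x j 0))

/-- a real family: pairwise different blocks of one class -/
def Rl (S : X2.St V n) (N : ℕ) (f : ℕ → V) : Prop :=
  (∀ k < N, S.c (f k) = S.c (f 0)) ∧ ∀ k < N, ∀ l < N, k ≠ l → ¬ Tw S (f k) (f l)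

/-- tracks with `L` rails and `N` indices -/
def Tk (G : SimpleGraph V) (S : X2.St V n) (L N : ℕ) (x : ℕ → ℕ → V) : Prop :=
  HS G S L N x ∧ ∀ i, i + 1 < L → Nc G x i (i + 1)

/-- **Chordless tracks** with `L` rails and `N` indices -/
def Ch (G : SimpleGraph V) (S : X2.St V n) (L N : ℕ) (x : ℕ → ℕ → V) : Prop :=
  HS G S L N x ∧ (∀ i, i + 1 < L → Nc G x i (i + 1)) ∧
    ∀ i j, i + 2 ≤ j → j < L → x i 0 ≠ x j 0 ∧ ¬ Nc G x i j

/-- **`A` is linked to `T`**: there is a chordless track from `A` to a real family in `T` -/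
def Lk (G : SimpleGraph V) (S : X2.St V n) (N : ℕ) (A T : Set V) : Prop :=
  ∃ (L : ℕ) (x : ℕ → ℕ → V), 1 ≤ L ∧ Ch G S L N x ∧ (∀ k < N, x 0 k ∈ A) ∧
    (∀ k < N, x (L - 1) k ∈ T) ∧ Rl S N (x (L - 1))

/-- the same with a real first rail -/
def RLk (G : SimpleGraph V) (S : X2.St V n) (N : ℕ) (A T : Set V) : Prop :=
  ∃ (L : ℕ) (x : ℕ → ℕ → V), 1 ≤ L ∧ Ch G S L N x ∧ (∀ k < N, x 0 k ∈ A) ∧
    (∀ k < N, x (L - 1) k ∈ T) ∧ Rl S N (x (L - 1)) ∧ Rl S N (x 0)

/-- **Folds** for the order `e` (`S.lt e`): a chordless track between two real families of one class; the first rail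
increases, the last one decreases and comes after the first one -/
structure Fold (G : SimpleGraph V) (S : X2.St V n) (e : Bool) (L N : ℕ) (x : ℕ → ℕ → V) : Prop where
  ch : Ch G S L N x
  three : 3 ≤ L
  rl0 : Rl S N (x 0)
  rl1 : Rl S N (x (L - 1))
  cc : S.c (x 0 0) = S.c (x (L - 1) 0)
  inc : ∀ k l, k < l → l < N → S.lt e (x 0 k) (x 0 l)
  dec : ∀ k l, k < l → l < N → S.lt e (x (L - 1) l) (x (L - 1) k)
  lr : ∀ k < N, ∀ l < N, S.lt e (x 0 k) (x (L - 1) l)

/-- **Finite fact F2**: no closed chordless track preserves the order -/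
def FPar (G : SimpleGraph V) (S : X2.St V n) (N : ℕ) : Prop :=
  ∀ (e : Bool) (L : ℕ) (x : ℕ → ℕ → V), 3 ≤ L → Ch G S L N x → Rl S N (x 0) → Rl S N (x (L - 1)) →
    S.c (x 0 0) = S.c (x (L - 1) 0) → (∀ k < N, ∀ l < N, S.lt e (x 0 k) (x (L - 1) l)) →
    (∀ k l, k < l → l < N → S.lt e (x 0 k) (x 0 l)) →
    (∀ k l, k < l → l < N → S.lt e (x (L - 1) k) (x (L - 1) l)) → False

/-- **Finite fact F3**: a fold and one member of another fold in the same class (with at least `16` members on both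
sides) do not cross -/
def FCrs (G : SimpleGraph V) (S : X2.St V n) (N : ℕ) : Prop :=
  ∀ (e : Bool) (L L' : ℕ) (x y : ℕ → ℕ → V), Fold G S e L N x → Fold G S e L' 33 y →
    S.c (x 0 0) = S.c (y 0 0) →
    (∀ k < N, S.lt e (x 0 k) (y 0 16) ∧ S.lt e (y 0 16) (x (L - 1) k) ∧
      S.lt e (x (L - 1) k) (y (L' - 1) 16)) → False

/-- the inside of the pair `a`, `b` in its class -/
def In (S : X2.St V n) (e : Bool) (a b : V) : Set V :=
  {v | S.c v = S.c a ∧ S.lt e a v ∧ S.lt e v b}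

/-- the class `κ` -/
def Cl (S : X2.St V n) (κ : Fin n) : Set V := {v | S.c v = κ}

/-- **Coverings**: for `N ≤ T` every set with at least `f N` elements is linked to the union of the classes in `Y` -/
def Cov (G : SimpleGraph V) (S : X2.St V n) (f : ℕ → ℕ) (T : ℕ) (Y : Finset (Fin n)) : Prop :=
  ∀ N ≤ T, ∀ A : Set V, f N ≤ A.ncard → Lk G S N A {v | S.c v ∈ Y}

end Pool.Agent.MPd439b2.EG
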