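import Pool.Agent.Lib.MP_d439b2_co.EG.Defs

/-!
# MP_d439b2_co, EG, Spec A: tools (helper29, after helper28)

Every `S_...` is a statement to be proved in its own file `EG/<Name>.lean` as `theorem u<Name> : S_<Name>`; the docstring
contains the complete proof.  Statements used in a proof are hypotheses of the theorem (`theorem uCat (h1 : S_Ram) ..`).
Elementary closure properties are in `EG/Base.lean`: `HS.sub`, `HS.sel`, `HS.rev`, `Nc.sub`, `Nc.rev`, `Nc.symm`,
`Ch.sub`, `Ch.rev`, `Ch.flip`, `Rl.sub`, `Lk.mono`, `RLk.mono`, `Tw.refl`, `Tw.symm`, `Tw.trans`, `Tw.conv`, `St.lt`.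
-/

set_option autoImplicit false

namespace Pool.Agent.MPd439b2.EG

open Pool.Agent.MPd439b2

/-- **Str** (20 lines).  No induced matching with two edges between two classes of `S`.

Proof. Let `s = S.s (S.c x) (S.c y)`.  If `S.ρ x = S.ρ x'` then `x = x'` (`S.inj`): clear.  If `s = true` then the one with the
smaller `ρ` sees more of the class of `y` (`S.dn`): `ρ x < ρ x'`: `x ~ y'`; `ρ x' < ρ x`: `x' ~ y`.  If `s = false` use `S.up`. -/
def S_Str : Prop := ∀ (V : Type) (n : ℕ) (S : X2.St V n) (x x' y y' : V), S.c x = S.c x' →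
  S.c y = S.c y' → S.c x ≠ S.c y → S.G.Adj x y → S.G.Adj x' y' → S.G.Adj x y' ∨ S.G.Adj x' y

/-- **Ram** (120 lines).  Ramsey's theorem for rails (uses `W.ramC`).

Proof. `N' = max N (n + 1) + 1`.  Colours of a pair `k < l`: for `i, j : Fin m` the truth values of the relations `G.Adj`,
`S.G.Adj`, `=`, `Tw S`, `S.ρ _ < S.ρ _` for `(x i k, x j l)`, for `(x i l, x j k)` and for `(x i k, x j k)`, the class `S.c (x i k)`, and
`χ k l` (a finite type).  `W.ramC` gives `s` with `N'` indices; use only the first `N' - 1 ≥ N` of them: the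
diagonal values at `k < N' - 1` are those of the pair `(k, N' - 1)`, so they are constant, and so is the class.  `inj` is the hypothesis
(`s` is injective). -/
def S_Ram : Prop := ∀ n m N q : ℕ, ∃ M : ℕ, ∀ (V : Type) (G : SimpleGraph V) (S : X2.St V n)
  (x : ℕ → ℕ → V) (χ : ℕ → ℕ → Fin q),
  (∀ i < m, ∀ k < M, ∀ l < M, k ≠ l → x i k ≠ x i l) →
  ∃ s : ℕ → ℕ, (∀ k l, k < l → l < N → s k < s l) ∧ (∀ k < N, s k < M) ∧
    HS G S m N (fun i k => x i (s k)) ∧
    ∀ k l k' l', k < l → l < N → k' < l' → l' < N → χ (s k) (s l) = χ (s k') (s l')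

/-- **Off** (40 lines).  Exceptional pairs of homogeneous rails are on the diagonal.

Proof. Let `Ex (x i k) (x j l)`, `k ≠ l`, say `k < l` (the other case: `Ex` is symmetric, exchange).  By `HS.g`, `HS.s` `Ex (x i 0) (x j l')` for all
`1 ≤ l' < N` (both adjacencies have the same values), and the `x j l'` are different: more than `b` exceptional pairs at `x i 0`
(`Set.ncard` of a set which contains the image of `{1, .., N - 1}`), contradiction to `Wd.deg`. -/
def S_Off : Prop := ∀ (V : Type) [Finite V] (n b m₀ : ℕ) (G : SimpleGraph V) (S : X2.St V n)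
  (m N : ℕ) (x : ℕ → ℕ → V), Wd G S b m₀ → HS G S m N x → b + 3 ≤ N →
  ∀ i < m, ∀ j < m, ∀ k < N, ∀ l < N, k ≠ l → ¬ Ex G S (x i k) (x j l)

/-- **Typ** (100 lines).  Rails which are not constant: a half graph of `S`, or a co-matching of exceptional pairs.  (Uses `S_Str`, `S_Off`.)

Proof. `Ex` is false for two vertices of one class (`Wd.typ`), where `S.G.Adj` is the type of the class for different vertices
(`S.typ`).  If `S.c (x i 0) = S.c (x j 0)` (so all `x i k`, `x j k` are in one class, `HS.c`), `x i 0 ≠ x j 0`: `x i k ≠ x j l` for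
all `k, l < N`: for `k = l` by `HS.q`; for `k ≠ l` equality for one pair gives `x i 0 = x j 1 = x j 2` (or `x i 1 = x j 0 = ..`, `N ≥ 3`).  So
all adjacencies in question are equal: not `Nc`.  So the classes are different.  `S_Off`: off the diagonal `G` and `S` agree.  If
`S.G.Adj (x i 0) (x j 1) ↔ S.G.Adj (x i 1) (x j 0)`, call the value `p`.  `S.G.Adj (x i 0) (x j 0)` has the value `p`: otherwise
`p` false: `x i 0 ~ x j 0`, `x i 1 ~ x j 1` and not `x i 0 ~ x j 1`, not `x i 1 ~ x j 0`, against `S_Str`; `p` true: `S_Str` for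
`x i 0 ~ x j 1`, `x i 1 ~ x j 0` and the non-edges on the diagonal.  As `Nc`, `G.Adj (x i 0) (x j 0)` is not `p` (and `G` has the value `p` off the
diagonal), so `Ex (x i 0) (x j 0)`.  If `p` is false: the rails are `i = j` adjacent only; one of them is a clique class and the other a stable
class (`Wd.typ`): `Rep.TP G m₀ true false false` with the clique rail first (`N ≥ m₀`), against `Wd.thin`.  So `p` is true. -/
def S_Typ : Prop := ∀ (V : Type) [Finite V] (n b m₀ : ℕ) (G : SimpleGraph V) (S : X2.St V n)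
  (m N : ℕ) (x : ℕ → ℕ → V), Wd G S b m₀ → HS G S m N x → b + m₀ + 3 ≤ N →
  ∀ i < m, ∀ j < m, Nc G x i j → S.c (x i 0) ≠ S.c (x j 0) ∧
    (Hf S x i j ∨ (Ex G S (x i 0) (x j 0) ∧ S.G.Adj (x i 0) (x j 0) ∧ S.G.Adj (x i 0) (x j 1) ∧
      S.G.Adj (x i 1) (x j 0)))

/-- **Hfn** (40 lines).  Half graphs and exceptional pairs give rails which are not constant.  (Uses `S_Str`, `S_Off`.)

Proof. (1) `Hf`: the classes are different, so `x i 0 ≠ x j 0`; off the diagonal `G` and `S` agree (`S_Off`), so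
`G.Adj (x i 0) (x j 1)` and `G.Adj (x i 1) (x j 0)` have different values.  (2) `Ex (x i 0) (x j 0)`: the types of the classes are different, so the
classes are; suppose that `G` has the same value `p` for `(0,1)`, `(1,0)`, `(0,0)`.  `S` has the value `p` off the diagonal and not
`p` on it (also at `1` by homogeneity): against `S_Str` as in the proof of `S_Typ`. -/
def S_Hfn : Prop := ∀ (V : Type) [Finite V] (n b m₀ : ℕ) (G : SimpleGraph V) (S : X2.St V n)
  (m N : ℕ) (x : ℕ → ℕ → V), Wd G S b m₀ → HS G S m N x → b + 3 ≤ N →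
  ∀ i < m, ∀ j < m, Hf S x i j ∨ Ex G S (x i 0) (x j 0) → Nc G x i j

/-- **HfR** (40 lines).  The rails of a half graph are real.

Proof. Let `k < l < N`; `E₁` the value of `S.G.Adj (x i k) (x j l)` for `k < l`, `E₂` for `k > l`, `D` for `k = l` (`HS.s`); `E₁ ≠ E₂`.  If `D ≠ E₂`
then `x j k` distinguishes `x i k` (`D`) and `x i l` (`E₂`), so not `Tw S (x i k) (x i l)` (the classes are different).  If `D ≠ E₁` then `x j l` distinguishes
them.  The other order by symmetry of `Tw`.  The classes: `HS.c`. -/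
def S_HfR : Prop := ∀ (V : Type) (n : ℕ) (G : SimpleGraph V) (S : X2.St V n)
  (m N : ℕ) (x : ℕ → ℕ → V), HS G S m N x → 2 ≤ N → ∀ i < m, ∀ j < m, Hf S x i j → Rl S N (x i)

/-- **Len** (120 lines).  Chordless tracks have at most 9 rails.  (Uses `S_Typ`, `S_Off`; `FT.T10.no10` is a theorem.)

Proof. Suppose `10 ≤ L`; take the first 10 rails, 16 indices.  Different rails of `Ch` never share a vertex: for consecutive rails by
`Nc` (first part), for the others by `Ch`, at the same index by `HS.q`; at different indices as in `S_Typ`.  `F` is defined by the adjacencies of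
`x i 0`, `x j 1` (bit `16 i + j`) and of `x i 0`, `x j 0` (bit `256 + 16 i + j`, `i < j < 10`): `FT.HR G 10 16 x F` by homogeneity (`HS.g`; `G.Adj` is
symmetric; decode the bits by `/ 16`, `% 16`).  `FT.Hy A B F` for the masks `A`, `B` of `T10`: `A` contains exactly the bits
`16 i + j` with `i + 2 ≤ j < 10`, `B` those with `j = i + 1 < 10` (check by `decide` on `Nat.testBit`, or by `interval_cases`).  `cn`: not `Nc` and different: the three
values agree.  `st`: `S_Typ`: half graph of `S` (the same for `G` off the diagonal), or the co-matching: `G` is true off the diagonal, false on it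
(`Ex` and `S` true), and the types of the classes are different: bits `17 i` and `17 j` (rails of one class: `S.typ`, and `G = S` inside a class). -/
def S_Len : Prop := ∀ (V : Type) [Finite V] (n b m₀ : ℕ) (G : SimpleGraph V) (S : X2.St V n)
  (L N : ℕ) (x : ℕ → ℕ → V), Wd G S b m₀ → b + m₀ + 16 ≤ N → Ch G S L N x → L ≤ 9

/-- **Sho** (80 lines).  Shortest walks are chordless.

Proof. Let `p'` be the smallest number for which there is a walk `w' 0, .., w' p'` of rails `< m` with `Nc G x (w' i) (w' (i + 1))` for `i < p'` (no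
repetitions now: drop `w (i + 1)` if it is equal to `w i` as a rail; equal rails (at the index 0, so at all indices by `HS.q`) have the same
relations), with `x (w' 0) 0 = x (w 0) 0` and `x (w' p') 0 = x (w p) 0`.  Put `L = p' + 1`, `u = w'`.  Chordless: let `i + 2 ≤ j ≤ p'`.  `Nc (w' i) (w' j)`: a shorter walk.
`x (w' i) 0 = x (w' j) 0`: if `j < p'` then `Nc (w' i) (w' (j + 1))`: shorter; if `j = p'`: the walk `w' 0, .., w' i` ends in the
same rail: shorter.  `HS` by `HS.sel`. -/
def S_Sho : Prop := ∀ (V : Type) (n : ℕ) (G : SimpleGraph V) (S : X2.St V n) (m N p : ℕ)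
  (x : ℕ → ℕ → V) (w : ℕ → ℕ), 2 ≤ N → HS G S m N x → (∀ i ≤ p, w i < m) →
  (∀ i < p, Nc G x (w i) (w (i + 1)) ∨ x (w i) 0 = x (w (i + 1)) 0) →
  ∃ (L : ℕ) (u : ℕ → ℕ), 1 ≤ L ∧ (∀ i < L, u i < m) ∧ Ch G S L N (fun i => x (u i)) ∧
    x (u 0) 0 = x (w 0) 0 ∧ x (u (L - 1)) 0 = x (w p) 0

/-- **Cat** (150 lines).  Composition of tracks.  (Uses `S_Ram`, `S_Sho`, `S_Len`.)

Proof. `M` is the number of `S_Ram` for `m = 18`, `N₁ = max N 2` and `q = 2`, and at least `b + m₀ + 16`; `L, L' ≤ 9` by `S_Len` (`Ch.sub` to `M` indices is not needed: `M ≤ M₁`).  Let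
`y 0 k = x (L - 1) (φ k)`, `φ k < M₁` (`k < M`); `φ` is injective (`HS.inj` of `y`).  Rails `X i k = x i (φ k)` (`i < L`), `X (9 + i) k = y i k`
(`i < L'`), `X i k = y 0 k` for the other `i < 18`; all injective in `k`.  `S_Ram` with `χ k l` = (`φ k < φ l`): a sequence `s`, homogeneous,
`φ (s k)` is increasing or decreasing.  `Nc` of consecutive rails of `x`, `y` is preserved: for `x` and increasing `φ ∘ s` as in `Nc.sub`, for decreasing
`φ ∘ s` the values at `(0,1)` and `(1,0)` are exchanged (homogeneity of `x`).  The walk `0, .., L - 1, 9, .., 9 + L' - 1` (the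
rails `L - 1` and `9` are equal) and `S_Sho`. -/
def S_Cat : Prop := ∀ n b m₀ N : ℕ, ∃ M : ℕ, ∀ (V : Type) [Finite V] (G : SimpleGraph V)
  (S : X2.St V n) (M₁ L L' : ℕ) (x y : ℕ → ℕ → V), Wd G S b m₀ → M ≤ M₁ → 1 ≤ L → 1 ≤ L' →
  Ch G S L M₁ x → Ch G S L' M y → (∀ k < M, ∃ l < M₁, y 0 k = x (L - 1) l) →
  ∃ (L'' : ℕ) (z : ℕ → ℕ → V), 1 ≤ L'' ∧ Ch G S L'' N z ∧ (∀ k < N, ∃ l < M₁, z 0 k = x 0 l) ∧
    ∀ k < N, ∃ l < M, z (L'' - 1) k = y (L' - 1) l

/-- **Int** (150 lines).  Interleaved real families of one class are linked.  (Uses `S_Ram`, `S_Sho`, `S_Hfn`.)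

Proof. Let `κ` be the class, `N₁ = max N (b + 3)`, `N₂` the number of `S_Ram` for `m = 3`, `N₁`, `q = 2`; `M = n * 2 * N₂ * 4 + 4`.  If `e` is given, `f` is increasing for
`S.lt e`.  For every `k` with `4 k + 2 < M` the vertices `f (4 k + 1)`, `f (4 k + 2)` are not twins: there is `a k` in another class with
`S.G.Adj (f (4 k + 1)) (a k) ↔ ¬ S.G.Adj (f (4 k + 2)) (a k)`.  Let `κ'` be its class.  By monotonicity (`St.see` in `X2/Defs.lean`, with
`S.s κ κ'`) the set of the vertices of the class `κ` seen by `a k` is closed downwards for `S.lt (S.s κ κ')`; so if `e = S.s κ κ'` then `a k` sees all `v ∈ Cl κ` with `v ≤ f (4 k + 1)`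
(order `e`) and no `v ≥ f (4 k + 2)`, otherwise it sees all `v ≥ f (4 k + 2)` and no `v ≤ f (4 k + 1)`.  Pigeonhole: `N₂` numbers `k` with the same `κ'`.  Rails `f (4 k)`, `a k`, `g (4 k)`
for these `k` (increasing): for `k ≤ l`: `f (4 k), g (4 k) < f (4 l + 1)` (in the order `e`), for `k > l`: `f (4 k), g (4 k) ≥ f (4 l + 2)`.  So `a l` has on `f (4 k)` and on `g (4 k)` the
same value, which depends exactly on `k ≤ l`; the `a l` are different (so all three rails are injective; `g (4 k)` is increasing).  `S_Ram` (`χ` = whether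
`f (4 k) = g (4 k)` at the first index): `HS`, `Hf` between the rails `0, 1` and `1, 2`, `Nc` by `S_Hfn`.  The walk `0, 1, 2` and `S_Sho`.  The families `f (4 k)` and `g (4 k)` are real: `a l`
distinguishes them. -/
def S_Int : Prop := ∀ n b m₀ N : ℕ, ∃ M : ℕ, ∀ (V : Type) [Finite V] (G : SimpleGraph V)
  (S : X2.St V n) (e : Bool) (f g : ℕ → V), Wd G S b m₀ → Rl S M f →
  (∀ k < M, S.c (g k) = S.c (f 0)) → (∀ k l, k < l → l < M → S.lt e (f k) (f l)) →
  (∀ k < M, S.le e (f k) (g k)) → (∀ k, k + 1 < M → S.lt e (g k) (f (k + 1))) →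
  ∃ (L : ℕ) (z : ℕ → ℕ → V), 1 ≤ L ∧ Ch G S L N z ∧ Rl S N (z 0) ∧ Rl S N (z (L - 1)) ∧
    (∀ k < N, ∃ l < M, z 0 k = f l) ∧ ∀ k < N, ∃ l < M, z (L - 1) k = g l

/-- **Di1** (150 lines).  Two-dimensional Ramsey.  (Uses `S_Ram`, `W.ramC`.)

Proof. Let `N₂ = max N 2 + 2`, `M₁` = the number of `W.ramC` for `N₂ + 1` and the colours below, `M = M₁`, `M'` the number of `S_Ram` for the `m = L * M` rails `(j, t) ↦ j * L + t`
(`j < M`, `t < L`), `N₂` indices and `q = 1`.  `S_Ram` gives `ι`.  Colours of a pair `j < l` of groups: for `t, t' < L` the classes of `x j t`, and all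
truth values (at the indices `(0,1)`, `(1,0)`, `(0,0)`) of the five relations between the rails `(j,t)` and `(l,t')`, between `(l,t)` and `(j,t')`, and between `(j,t)` and `(j,t')`.  `W.ramC`:
`σ` with `N₂ + 1` groups, drop the last one.  Put `z t k = x (σ k) t (ι k)`.  `Hm` for every relation `P`: for `k < l` `P (z t k) (z t' l)` is `P` for the rails `(σ k, t)`, `(σ l, t')` at the indices
`ι k < ι l`, a colour; in the same way `P (z t l) (z t' k)`; the diagonal is the colour of one group.  `inj`: if `z t k = z t l`, `k < l`, then by homogeneity (`HS.q` of the big system, rails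
`(σ k, t)`, `(σ l, t)`) `x (σ k) t (ι 0) = x (σ l) t (ι 1) = x (σ l) t (ι 2)` (indices `< N₂`): contradiction.  The last conclusion is the homogeneity of the big system:
for `j = σ k`, `l = σ l'` and `P` = `G.Adj`, `S.G.Adj` or `Tw S`, the value of `P (x j t (ι p)) (x l t' (ι p'))`, `p < p'`, is that of `p = k`, `p' = l'`; and colours.  (It is stated only for
`S.G.Adj` and `Tw S`, as needed later: `cross`.) -/
def S_Di1 : Prop := ∀ n L N : ℕ, ∃ M M' : ℕ, ∀ (V : Type) (G : SimpleGraph V) (S : X2.St V n)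
  (x : ℕ → ℕ → ℕ → V),
  (∀ j < M, ∀ t < L, ∀ k < M', ∀ l < M', k ≠ l → x j t k ≠ x j t l) →
  ∃ σ ι : ℕ → ℕ, (∀ k l, k < l → l < N → σ k < σ l) ∧ (∀ k l, k < l → l < N + 2 → ι k < ι l) ∧
    (∀ k < N, σ k < M) ∧ (∀ k < N + 2, ι k < M') ∧
    HS G S L N (fun t k => x (σ k) t (ι k)) ∧
    ∀ t < L, ∀ t' < L, ∀ k < N, ∀ l < N, k ≠ l → ∀ p q p' q' : ℕ, p < q → q < N + 2 → p' < q' → q' < N + 2 →
      (S.G.Adj (x (σ k) t (ι p)) (x (σ l) t' (ι q)) ↔ S.G.Adj (x (σ k) t (ι p')) (x (σ l) t' (ι q'))) ∧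
      (S.G.Adj (x (σ k) t (ι q)) (x (σ l) t' (ι p)) ↔ S.G.Adj (x (σ k) t (ι q')) (x (σ l) t' (ι p'))) ∧
      (Tw S (x (σ k) t (ι p)) (x (σ l) t' (ι q)) ↔ Tw S (x (σ k) t (ι p')) (x (σ l) t' (ι q')))

/-- **Dia** (180 lines).  **The diagonal lemma.**  (Uses `S_Di1`, `S_Len`, `S_Typ`, `S_Hfn`, `S_Off`, `S_Str`.)

Proof. `N₁ = max N (b + m₀ + 3)`.  For `L₀ ≤ 9` let `M(L₀), M'(L₀)` be the numbers of `S_Di1` for `L₀`, `N₁`; `M` = the sum over `L₀ ≤ 9` of the `M(L₀) + 1`, `M'` = the maximum of `b + m₀ + 16` and the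
`M'(L₀)`.  All `L j ≤ 9` (`S_Len`); pigeonhole: `L₀` and more than `M(L₀)` groups `j` with `L j = L₀`; `S_Di1` for these groups (renumbered by an increasing function): `σ`, `ι`,
`z t k = x (σ k) t (ι k)`, `HS G S L₀ N₁ z`.
(Nc) Let `t + 1 < L₀`.  By `S_Typ` in a group `j = σ k` (rails `t`, `t + 1`, `M' ≥ b + m₀ + 3`): half graph or exceptional diagonal.  Exceptional: `Ex (z t 0) (z (t + 1) 0)` (the group `σ 0`, index `ι 0`, by homogeneity of the
group): `S_Hfn`.  Half: suppose that `z t`, `z (t + 1)` are constant for `G` (they are different as the classes are): value `p`; off the diagonal `G = S` (`S_Off`), so `S` has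
the value `p` at `(0,1)` and `(1,0)` of `z`.  Let `j = σ 0`, `l = σ 1`.  By the last part of `S_Di1` and by `HS` of `z`: for `a < a'` (`< N₁ + 2`) `S.G.Adj (x j t (ι a)) (x l (t + 1) (ι a'))` has the value `p`, and
`S.G.Adj (x l t (ι a')) (x j (t + 1) (ι a))` has the value `p`.  Inside the groups `S` has for `a < a'` the value `E₁` for `(x j t (ι a), x j (t + 1) (ι a'))` and `E₂ ≠ E₁` for `(x j t (ι a'), x j (t + 1) (ι a))`, the
same `E₁, E₂` in the group `l` [if not: `N₁ ≥ 3` and the colours; or take two of three groups; simplest: add to the pigeonhole above the value of `E₁` for every `t`, and the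
kind of the step].  `E₁ ≠ p`: the pairs `(x j t (ι 0), x j (t+1) (ι 1))`, `(x l t (ι 2), x l (t+1) (ι 3))` have the value `not p`, the crossing pairs `(x j t (ι 0), x l (t+1) (ι 3))` and `(x l t (ι 2), x j (t+1) (ι 1))` have the value `p`:
against `S_Str` (directly if `p` is false; if `p` is true apply `S_Str` to the crossing pairs).  `E₂ ≠ p`: `(x j t (ι 1), x j (t+1) (ι 0))`, `(x l t (ι 3), x l (t+1) (ι 2))` and the crossing pairs `(x j t (ι 1), x l (t+1) (ι 2))`,
`(x l t (ι 3), x j (t+1) (ι 0))`.  (These use 4 indices `≤ N₁ + 1`.)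
(Rl) Suppose `Rl S M' (x j t)` for all `j` (`t = L j - 1` or `t = 0`) and `Tw S (z t k) (z t l)`, `k < l`.  By the last part of `S_Di1` `Tw S (x (σ k) t (ι k)) (x (σ l) t (ι q))` for two
different `q > k` (`q ≤ N₁ + 1`), so two vertices of the real rail `x (σ l) t` are twins (`Tw.trans`): contradiction.  The classes: `HS.c`.
Finally restrict to `N ≤ N₁` indices. -/
def S_Dia : Prop := ∀ n b m₀ N : ℕ, ∃ M M' : ℕ, ∀ (V : Type) [Finite V] (G : SimpleGraph V)
  (S : X2.St V n) (L : ℕ → ℕ) (x : ℕ → ℕ → ℕ → V), Wd G S b m₀ →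
  (∀ j < M, 1 ≤ L j ∧ Ch G S (L j) M' (x j) ∧ Rl S M' (x j (L j - 1))) →
  ∃ (L₀ : ℕ) (σ ι : ℕ → ℕ), 1 ≤ L₀ ∧ (∀ k l, k < l → l < N → σ k < σ l) ∧
    (∀ k < N, σ k < M ∧ ι k < M' ∧ L (σ k) = L₀) ∧
    Tk G S L₀ N (fun t k => x (σ k) t (ι k)) ∧ Rl S N (fun k => x (σ k) (L₀ - 1) (ι k)) ∧
    ((∀ j < M, Rl S M' (x j 0)) → Rl S N (fun k => x (σ k) 0 (ι k)))

/-- **Rkp** (120 lines).  A large cut-rank gives a track with two rails.  (Uses `S_Ram`; `R3.rows`, `X2.Ram3` are theorems.)

Proof. `N₁ = max N 3`, `m` the number of `S_Ram` for `m = 2`, `N₁`, `q = 1`; `m' = max m 2`; `M` the number of `R3.S_Rows` for `m'`; `R = M`.  `LK.cr G X = LK.rk G X Xᶜ > M` (the dimension of the span of the rows), so there are more than `M` different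
rows (a span of `M` vectors has dimension at most `M`), i.e. `x 0, .., x (M - 1) ∈ X` with pairwise different sets `N(x i) \ X`, and for
`i < j` `y i j ∉ X` adjacent to exactly one of `x i`, `x j`.  `S_Rows`: `φ`, `z`.  The `z k` are different as they see different sets of the `x (φ l)` (`m' ≥ 2`).
Rails `x (φ k)` and `z k`: `S_Ram`.  `x (φ (s 0)) ≠ z (s 0)`, one is in `X`, the other one is not.  Matching: the values at `(0,1)`, `(1,0)` are false, at `(0,0)` true; co-matching: opposite; half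
graphs: the values at `(0,1)` and `(1,0)` are different.  So `Nc`. -/
def S_Rkp : Prop := ∀ n N : ℕ, ∃ R : ℕ, ∀ (V : Type) [Finite V] (G : SimpleGraph V) (S : X2.St V n)
  (X : Set V), R < LK.cr G X → ∃ x : ℕ → ℕ → V, HS G S 2 N x ∧ Nc G x 0 1 ∧
    ∀ k < N, x 0 k ∈ X ∧ x 1 k ∉ X

/-- **Fto** (50 lines).  Finite-to-one families contain injective ones (uses `W.ramC`).

Proof. `M` = the number of `W.ramC` for `max N (d + 2)` and the colours `Set (Fin m)`: the colour of `k < l` is the set of the `t` with `x t k = x t l`.  For the sequence `s` of `W.ramC`: if `t` is in the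
common colour then `x t (s 0) = x t (s l)` for all `l ≤ d + 1`: more than `d` indices with the same value (`s` is injective on them): contradiction.  So the colour is
empty. -/
def S_Fto : Prop := ∀ m d N : ℕ, ∃ M : ℕ, ∀ (V : Type) (x : ℕ → ℕ → V),
  (∀ t < m, ∀ v : V, {k | k < M ∧ x t k = v}.ncard ≤ d) →
  ∃ s : ℕ → ℕ, (∀ k l, k < l → l < N → s k < s l) ∧ (∀ k < N, s k < M) ∧
    ∀ t < m, ∀ k < N, ∀ l < N, k ≠ l → x t (s k) ≠ x t (s l)

/-- **Wlk** (50 lines).  Exceptional walks from different vertices are finite-to-one.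

Proof. Induction on `i`.  `i = 0`: at most one `k`.  `i + 1`: the set is contained in the union over the (at most `b`) vertices `u` with `Ex v u` of the sets for `i` and `u`
(`u = x i k`, `Ex` is symmetric), each with at most `b ^ i` elements; the union of the at most `b` sets has at most `b ^ (i + 1)` elements
(`Set.ncard` of a finite union over the finite set `{u | Ex v u}`). -/
def S_Wlk : Prop := ∀ (V : Type) [Finite V] (n b m₀ : ℕ) (G : SimpleGraph V) (S : X2.St V n)
  (M t : ℕ) (x : ℕ → ℕ → V), Wd G S b m₀ → (∀ k < M, ∀ l < M, k ≠ l → x 0 k ≠ x 0 l) →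
  (∀ k < M, ∀ i < t, Ex G S (x i k) (x (i + 1) k)) →
  ∀ i ≤ t, ∀ v : V, {k | k < M ∧ x i k = v}.ncard ≤ b ^ i

/-- **Ewr** (100 lines).  Real ends.  (Uses `S_Fto`, `S_Wlk`, `S_Ram`, `S_Hfn`, `S_Typ`, `S_HfR`.)

Proof. `N₁ = max N (b + m₀ + 3)`, `M₁` the number of `S_Ram` for `10`, `N₁`, `q = 2 ^ ..` (here `q = 1`), `M₂` the number of `S_Fto` for `m = 10`, `d = (b + 1) ^ 9`, `M₁`; `W = n * (b + 1) ^ 9 * M₂ + 1`.
Let `u 0, .., u (W - 1)` be vertices, pairwise not twins, each the end of an exceptional walk with `t ≤ 8` steps from a vertex of `A`.  Pigeonhole for the class: more than `(b + 1) ^ 9 * M₂` of them in one class.  The starting points: every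
vertex is the starting point of walks with `t` steps to at most `b ^ t ≤ (b + 1) ^ 9` vertices (`S_Wlk` for the reversed walks, whose starting points `u i` are different).  So there are `M₂` of them with different
starting points.  The rails of the walks are finite-to-one (`S_Wlk`), so `S_Fto` and `S_Ram` give a homogeneous system with `t + 1` rails, the last one real.
Now take the smallest `t` for which there is `HS G S (t + 1) N₁ x` with `x 0 k ∈ A`, `Ex (x i k) (x (i + 1) k)` and `Rl S N₁ (x t)`.  It is a chordless track: `Nc` for consecutive rails by `S_Hfn`.  Let `i + 2 ≤ j ≤ t`.  `x i 0 = x j 0`: then the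
rails are equal, delete the rails `i + 1, .., j`: shorter.  `Nc i j`: by `S_Typ` `Hf` (then `x i` is real by `S_HfR`: the walk `x 0, .., x i` is shorter) or `Ex` (delete the rails between: shorter). -/
def S_Ewr : Prop := ∀ n b m₀ N : ℕ, ∃ W : ℕ, ∀ (V : Type) [Finite V] (G : SimpleGraph V)
  (S : X2.St V n) (A : Set V) (t : ℕ) (u : ℕ → V), Wd G S b m₀ → t ≤ 8 →
  (∀ i < W, ∀ j < W, i ≠ j → ¬ Tw S (u i) (u j)) →
  (∀ i < W, ∃ w : ℕ → V, w 0 ∈ A ∧ w t = u i ∧ ∀ j < t, Ex G S (w j) (w (j + 1))) →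
  ∃ (L : ℕ) (x : ℕ → ℕ → V), 1 ≤ L ∧ Ch G S L N x ∧ (∀ k < N, x 0 k ∈ A) ∧ Rl S N (x (L - 1)) ∧
    ∀ i, i + 1 < L → ∀ k < N, Ex G S (x i k) (x (i + 1) k)

/-- **Ewl** (120 lines).  Long exceptional geodesics.  (Uses `S_Fto`, `S_Wlk`, `S_Ram`, `S_Hfn`, `S_Typ`, `S_HfR`, `S_Len`.)

Proof. `N₁ = max N (b + m₀ + 16)`, `M₁` the number of `S_Ram` for `m = 10`, `N₁`, `q = 1`; `W` the number of `S_Fto` for `m = 10`, `d = (b + 1) ^ 9`, `M₁`.  Let `v 0, .., v (W - 1) ∈ A` be different and
`w i 0, .., w i 9` an exceptional geodesic from `v i = w i 0` (`j`-th vertex at distance `j` from `v i` in the graph of the exceptional pairs).  `S_Wlk`, `S_Fto`, `S_Ram`: a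
homogeneous system `x` with 10 rails.  If some rail `x i`, `i ≤ 8`, is real (`Rl S N₁ (x i)`): we have the first alternative by the second half of the proof of `S_Ewr` (take the
smallest `t`).  Otherwise `x` is a chordless track with 10 rails: consecutive rails `Nc` by `S_Hfn`; for `i + 2 ≤ j` `x i 0 ≠ x j 0` (different distances from `x 0 0`), and `Nc` would be `Hf` (the rail `i ≤ 7` is real,
`S_HfR`) or `Ex` (a shorter walk between the vertices at distance `i` and `j`): impossible.  This contradicts `S_Len`. -/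
def S_Ewl : Prop := ∀ n b m₀ N : ℕ, ∃ W : ℕ, ∀ (V : Type) [Finite V] (G : SimpleGraph V)
  (S : X2.St V n) (A : Set V) (w : ℕ → ℕ → V), Wd G S b m₀ →
  (∀ i < W, w i 0 ∈ A ∧ ∀ j < W, i ≠ j → w i 0 ≠ w j 0) →
  (∀ i < W, ∀ j < 9, Ex G S (w i j) (w i (j + 1))) →
  (∀ i < W, ∀ j ≤ 9, ∀ (t : ℕ) (p : ℕ → V), p 0 = w i 0 → p t = w i j →
    (∀ j' < t, Ex G S (p j') (p (j' + 1))) → j ≤ t) →
  ∃ (L : ℕ) (x : ℕ → ℕ → V), 1 ≤ L ∧ Ch G S L N x ∧ (∀ k < N, x 0 k ∈ A) ∧ Rl S N (x (L - 1)) ∧
    ∀ i, i + 1 < L → ∀ k < N, Ex G S (x i k) (x (i + 1) k)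

/-- **Ewd** (200 lines).  **Large sets are linked to real families by exceptional walks.**  (Uses `S_Ewr`, `S_Ewl`.)

Proof. `W₁`, `W₂` the numbers of `S_Ewr`, `S_Ewl`; `c = 9 * W₁`, `κ = (b + 1) ^ 9`, `F = W₂ + κ * (2 * (β c + 1)) + 1`.  Suppose the conclusion fails for `A`, `F ≤ |A|`.  Let `D v w` mean: there is an exceptional walk with at
most 8 steps from `v` to `w` (`w ∈ ball v`); a ball has at most `1 + b + .. + b ^ 8 ≤ κ` elements.  (1) The vertices `v ∈ A` from which there is an exceptional geodesic with 9 steps are less than `W₂` many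
(`S_Ewl`).  Let `A₁` be the set of the other ones.  For `v ∈ A₁` the ball is closed under exceptional pairs (a vertex at distance 9 would give a geodesic: shortest walk).  So the balls of `v, v' ∈ A₁` are equal or disjoint if .. [they are the
components of the exceptional graph; `v' ∈ ball v` iff same component].  (2) `|A₁| ≥ κ * 2 * (β c + 1)`, each component contains at most `κ` elements of `A₁`, so there are `2 (β c + 1)` elements of `A₁` in different components; let `X` be the union of the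
balls of the first `β c + 1` of them: `|X| ≥ β c + 1`, and the other ones are in `Xᶜ`: `|Xᶜ| ≥ β c + 1`.  (3) The balls of all `v ∈ A` meet less than `9 * W₁ = c` blocks: otherwise for some `t ≤ 8` the ends of walks with `t` steps
meet `W₁` blocks, and `S_Ewr` gives the conclusion.  (4) `LK.cr G X ≤ c`: there are no exceptional pairs between `X` and `Xᶜ`, so two vertices `x, x' ∈ X` which are twins for `S` have the same neighbours in `Xᶜ`: outside their class by `Tw` and
`¬ Ex`; in their class `S.G.Adj x z ↔ t = true ↔ S.G.Adj x' z` for `z ∈ Xᶜ` (`z ≠ x, x'`), `S.typ`.  So there are at most `c` different rows, and the rank is at most the number of rows.  `Link`: contradiction. -/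
def S_Ewd : Prop := ∀ (β : ℕ → ℕ) (n b m₀ N : ℕ), ∃ c F : ℕ, ∀ (V : Type) [Finite V]
  (G : SimpleGraph V) (S : X2.St V n) (A : Set V), Wd G S b m₀ → Rep.Link β c G → F ≤ A.ncard →
  ∃ (L : ℕ) (x : ℕ → ℕ → V), 1 ≤ L ∧ Ch G S L N x ∧ (∀ k < N, x 0 k ∈ A) ∧ Rl S N (x (L - 1)) ∧
    ∀ i, i + 1 < L → ∀ k < N, Ex G S (x i k) (x (i + 1) k)

end Pool.Agent.MPd439b2.EG
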