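import Pool.Agent.Lib.MP_d439b2_co.EG.Cut

/-!
# MP_d439b2_co, EG/Zone: zones and annuli of the elementary end game (helper28)

The abstract form of `(4.3)` of `EG/TEXT.md`.
-/

set_option autoImplicit false

namespace Pool.Agent.MPd439b2.EG

/-- a predicate or its complement holds at `K + 1` numbers below `4 K + 4`, any two of which differ by at least `2` -/
theorem sel (P : ℕ → Prop) (K : ℕ) :
    (∃ φ : ℕ → ℕ, (∀ t ≤ K, φ t < 4 * K + 4 ∧ P (φ t)) ∧ ∀ t < K, φ t + 2 ≤ φ (t + 1)) ∨
    ∃ φ : ℕ → ℕ, (∀ t ≤ K, φ t < 4 * K + 4 ∧ ¬ P (φ t)) ∧ ∀ t < K, φ t + 2 ≤ φ (t + 1) := by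
  classical
  have key : ∀ Q : ℕ → Prop, ∀ s : Finset ℕ, (∀ j ∈ s, j < 2 * K + 2 ∧ Q (2 * j)) → K + 1 ≤ s.card →
      ∃ φ : ℕ → ℕ, (∀ t ≤ K, φ t < 4 * K + 4 ∧ Q (φ t)) ∧ ∀ t < K, φ t + 2 ≤ φ (t + 1) := by
    intro Q s hs hc
    obtain ⟨s', hs', hc'⟩ := Finset.exists_subset_card_eq hc
    have e := s'.orderEmbOfFin hc'
    refine ⟨fun t => if h : t < K + 1 then 2 * s'.orderEmbOfFin hc' ⟨t, h⟩ else 0, ?_, ?_⟩
    · intro t ht
      have h : t < K + 1 := by omega
      simp only [h, dif_pos]
      have := hs _ (hs' (Finset.orderEmbOfFin_mem s' hc' ⟨t, h⟩))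
      exact ⟨by omega, this.2⟩
    · intro t ht
      have h : t < K + 1 := by omega
      have h' : t + 1 < K + 1 := by omega
      simp only [h, h', dif_pos]
      have : s'.orderEmbOfFin hc' ⟨t, h⟩ < s'.orderEmbOfFin hc' ⟨t + 1, h'⟩ :=
        (s'.orderEmbOfFin hc').strictMono (by
          rw [Fin.mk_lt_mk]
          omega)
      omega
  have hcard := Finset.card_filter_add_card_filter_not (s := Finset.range (2 * K + 2))
    (fun j => P (2 * j))
  rw [Finset.card_range] at hcard
  rcases Nat.lt_or_ge ((Finset.range (2 * K + 2)).filter fun j => P (2 * j)).card (K + 1) with h | h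
  · right
    refine key (fun j => ¬ P j) ((Finset.range (2 * K + 2)).filter fun j => ¬ P (2 * j))
      (fun j hj => ?_) (by omega)
    rw [Finset.mem_filter, Finset.mem_range] at hj
    exact hj
  · left
    refine key P _ (fun j hj => ?_) h
    rw [Finset.mem_filter, Finset.mem_range] at hj
    exact hj

instance : Inhabited Fo := ⟨⟨id, id, id⟩⟩

section

variable {Φ : ℕ → Fo → Prop} {c : ℕ}

/-- the cuts `b 0 = jb`, `b (i + 1)` = the largest cut `≤ b i - L` which is not fully crossed inside `[ja, jb)` -/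
noncomputable def bc (Φ : ℕ → Fo → Prop) (C L ja jb : ℕ) : ℕ → ℕ
  | 0 => jb
  | i + 1 => ka Φ C ja jb (bc Φ C L ja jb i - L)

/-- **(4.3)** -/
theorem zones (H : FoSys Φ c) {C L m K D ja jb : ℕ} (hC : 2 * c + 5 ≤ C) (hm : C + c + 2 ≤ m)
    (hL : 1 ≤ L) (hJ : ja + 2 * L * (4 * K + 6) ≤ jb) :
    (∃ p q, ja ≤ p ∧ q ≤ jb ∧ p + L ≤ q ∧ Iso Φ (m + 3 + D + C + C) fun x => p ≤ x ∧ x < q) ∨
    ∃ κ η : ℕ → ℕ, (∀ t ≤ K, Iso Φ C fun x => κ t ≤ x ∧ x < η t) ∧
      (((∀ t ≤ K, ja ≤ κ t ∧ κ t ≤ jb ∧ jb ≤ η t) ∧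
        ∀ t < K, κ (t + 1) + L ≤ κ t ∧ η t ≤ η (t + 1) ∧ ∃ F, Φ D F ∧
          ∀ k < D, ja ≤ F.f k ∧ F.f k < jb ∧ η t ≤ F.g k ∧ F.g k < η (t + 1)) ∨
      ((∀ t ≤ K, κ t ≤ ja ∧ ja ≤ η t ∧ η t ≤ jb) ∧
        ∀ t < K, η (t + 1) + L ≤ η t ∧ κ t ≤ κ (t + 1) ∧ ∃ F, Φ D F ∧
          ∀ k < D, ja ≤ F.g k ∧ F.g k < jb ∧ κ t ≤ F.f k ∧ F.f k < κ (t + 1))) := by
  have hC0 : 0 < C := by omega
  set b := bc Φ C L ja jb with hb
  have b0 : b 0 = jb := rfl
  have bs : ∀ i, b (i + 1) = ka Φ C ja jb (b i - L) := fun i => rfl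
  have ble : ∀ i, b (i + 1) ≤ b i - L := fun i => by
    rw [bs]
    exact ka_le _ _ _ _ _
  have bu : ∀ i, Unc Φ C ja jb (b (i + 1)) := fun i => by
    rw [bs]
    exact ka_unc hC0
  by_cases h1 : ∃ i < 4 * K + 5, ja + L ≤ b i ∧ b (i + 1) + L ≤ b i - L
  · -- CASE 1
    left
    obtain ⟨i, -, h2, h3⟩ := h1
    obtain ⟨U, hU, hU1, hU2⟩ := lemU H (C := C) (j₀ := c + 1) (lo := ja) (hi := jb)
      (p₀ := b i - L) (z := b (i + 1) + 1) (by omega) (by omega) (by rw [← bs]; omega) (by omega)
    have g1 : U.f (c + 1 + 2) < b (i + 1) + 1 := (hU1 (c + 1 + 2) (by omega)).1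
    have g2 : U.h (c + 1) ≤ U.g c := H.hhi C U hU.1 c (c + 1) (by omega) (by omega)
    have g3 : U.g c < jb := (hU.2 c (by omega)).2
    have hU3 : Φ (c + 1 + 3) U := H.pre hU.1 (by omega)
    have g4 := kT_le Φ C U (c + 1)
    have g5 := kT_gt H (C := C) (m := c + 1) hC (by omega) hU3
    have g6 := (hU.2 (c + 1 - c - 1) (by omega)).1
    refine ⟨kT Φ C U (c + 1), U.h (c + 1), by omega, by omega, by omega, ?_⟩
    intro F hF
    have hiso := kT_iso H (C := C) (m := c + 1) hC (by omega) hU3 F (H.pre hF (by omega))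
    constructor
    · rintro ⟨a1, a2⟩
      exact hiso.1 ⟨fun k hk => a1 k (by omega), fun k hk => a2 k (by omega)⟩
    · rintro ⟨a1, a2⟩
      exact hiso.2 ⟨fun k hk => a1 k (by omega), fun k hk => a2 k (by omega)⟩
  -- CASE 2
  push Not at h1
  have blo : ∀ i ≤ 4 * K + 5, ja + 2 * L * (4 * K + 6 - i) ≤ b i := by
    intro i
    induction i with
    | zero =>
      intro _
      rw [b0]
      simpa using hJ
    | succ i ih =>
      intro hi
      have h2 := ih (by omega)
      have h3 : 2 * L * (4 * K + 6 - i) = 2 * L * (4 * K + 6 - (i + 1)) + 2 * L := by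
        have : 4 * K + 6 - i = (4 * K + 6 - (i + 1)) + 1 := by omega
        rw [this]
        ring
      have h4 := h1 i (by omega) (by omega)
      omega
  have blo' : ∀ i ≤ 4 * K + 5, ja + 2 * L ≤ b i := by
    intro i hi
    have h2 := blo i hi
    have h3 : 2 * L ≤ 2 * L * (4 * K + 6 - i) := by
      have : 1 ≤ 4 * K + 6 - i := by omega
      nlinarith
    omega
  have bmono : ∀ i j, i ≤ j → b j ≤ b i := by
    intro i j hij
    induction j, hij using Nat.le_induction with
    | base => exact le_rfl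
    | succ j _ ih =>
      have := ble j
      omega
  have bjb : ∀ i, b i ≤ jb := fun i => by
    rw [← b0]
    exact bmono 0 i (Nat.zero_le i)
  have bgap : ∀ i < 4 * K + 5, b (i + 1) + L ≤ b i := by
    intro i hi
    have := ble i
    have := blo' i (by omega)
    omega
  -- the cuts `b i` are not crossed inside `[ja, jb)`
  have bunc : ∀ i, ∀ F, Φ C F → (∀ k < C, ja ≤ F.f k ∧ F.g k < jb) →
      (∀ k < C, F.f k < b i ∧ b i ≤ F.g k) → False := by
    intro i F hF h2 h3
    cases i with
    | zero =>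
      have := (h3 0 hC0).2
      have := (h2 0 hC0).2
      rw [b0] at *
      omega
    | succ i => exact bu i ⟨F, ⟨hF, h2⟩, h3⟩
  set N := m + 3 + D + C with hN
  by_cases h2 : ∃ i < 4 * K + 4, Iso Φ (N + C) fun x => b (i + 1) ≤ x ∧ x < b i
  · left
    obtain ⟨i, hi, h3⟩ := h2
    have := blo' (i + 1) (by omega)
    exact ⟨b (i + 1), b i, by omega, bjb i, bgap i (by omega), h3⟩
  have h2 : ∀ i < 4 * K + 4, ¬ Iso Φ (N + C) fun x => b (i + 1) ≤ x ∧ x < b i :=
    fun i hi h => h2 ⟨i, hi, h⟩
  -- external folds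
  let up : ℕ → Prop := fun i => ∃ F, Φ N F ∧ ∀ k < N, b (i + 1) ≤ F.f k ∧ F.f k < b i ∧ jb ≤ F.g k
  let dn : ℕ → Prop := fun i => ∃ F, Φ N F ∧ ∀ k < N, b (i + 1) ≤ F.g k ∧ F.g k < b i ∧ F.f k < ja
  have hud : ∀ i < 4 * K + 4, up i ∨ dn i := by
    intro i hi
    have h3 := h2 i hi
    simp only [Iso, not_forall] at h3
    obtain ⟨F, hF, h4⟩ := h3
    have hja := blo' (i + 1) (by omega)
    by_cases h5 : (∀ k < N + C, b (i + 1) ≤ F.f k ∧ F.f k < b i) ∧
        ∀ k < N + C, ¬ (b (i + 1) ≤ F.g k ∧ F.g k < b i)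
    · left
      obtain ⟨h5, h6⟩ := h5
      have h7 : ∀ k < N + C, b i ≤ F.g k := by
        intro k hk
        by_contra hn
        push Not at hn
        refine h6 k hk ⟨?_, hn⟩
        have := (h5 k hk).1
        have := H.lt _ F hF k hk k hk
        omega
      have h8 : jb ≤ F.g N := by
        by_contra hn
        push Not at hn
        refine bunc i (F.sub fun k => N + k) (H.shift hF (by omega)) (fun k hk => ⟨?_, ?_⟩)
          fun k hk => ⟨(h5 (N + k) (by omega)).2, h7 (N + k) (by omega)⟩
        · show ja ≤ F.f (N + k)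
          have := (h5 (N + k) (by omega)).1
          omega
        · show F.g (N + k) < jb
          rcases Nat.eq_zero_or_pos k with rfl | hk0
          · exact hn
          · have := H.dec _ F hF N (N + k) (by omega) (by omega)
            omega
      refine ⟨F, H.pre hF (by omega), fun k hk => ⟨(h5 k (by omega)).1, (h5 k (by omega)).2, ?_⟩⟩
      have := H.dec _ F hF k N hk (by omega)
      omega
    · right
      have h6 : (∀ k < N + C, ¬ (b (i + 1) ≤ F.f k ∧ F.f k < b i)) ∧
          ∀ k < N + C, b (i + 1) ≤ F.g k ∧ F.g k < b i := by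
        by_contra hn
        exact h4 ⟨h5, hn⟩
      obtain ⟨h6, h7⟩ := h6
      have h8 : ∀ k < N + C, F.f k < b (i + 1) := by
        intro k hk
        by_contra hn
        push Not at hn
        refine h6 k hk ⟨hn, ?_⟩
        have := (h7 k hk).2
        have := H.lt _ F hF k hk k hk
        omega
      have h9 : F.f N < ja := by
        by_contra hn
        push Not at hn
        refine bunc (i + 1) (F.sub fun k => N + k) (H.shift hF (by omega)) (fun k hk => ⟨?_, ?_⟩)
          fun k hk => ⟨h8 (N + k) (by omega), (h7 (N + k) (by omega)).1⟩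
        · show ja ≤ F.f (N + k)
          rcases Nat.eq_zero_or_pos k with rfl | hk0
          · exact hn
          · have := H.inc _ F hF N (N + k) (by omega) (by omega)
            omega
        · show F.g (N + k) < jb
          have := (h7 (N + k) (by omega)).2
          have := bjb i
          omega
      refine ⟨F, H.pre hF (by omega), fun k hk => ⟨(h7 k (by omega)).1, (h7 k (by omega)).2, ?_⟩⟩
      have := H.inc _ F hF k N hk (by omega)
      omega
  right
  rcases sel up K with ⟨φ, hφ, hφ2⟩ | ⟨φ, hφ, hφ2⟩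
  · -- UP
    choose! τ hτ hτ2 using fun t (ht : t ≤ K) => (hφ t ht).2
    have hT : ∀ t ≤ K, Φ (m + 3) (τ t) := fun t ht => H.pre (hτ t ht) (by omega)
    have k1 : ∀ t ≤ K, kT Φ C (τ t) m ≤ b (φ t) := fun t ht => by
      have := kT_le Φ C (τ t) m
      have := (hτ2 t ht (m + 2) (by omega)).2.1
      omega
    have k2 : ∀ t ≤ K, b (φ t + 1) < kT Φ C (τ t) m := fun t ht => by
      have := kT_gt H (C := C) (m := m) hC (by omega) (hT t ht)
      have := (hτ2 t ht (m - c - 1) (by omega)).1
      omega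
    have k3 : ∀ t ≤ K, jb ≤ (τ t).h m := fun t ht => by
      have := H.hlo _ (τ t) (hτ t ht) m (m + 1) (by omega) (by omega)
      have := (hτ2 t ht (m + 1) (by omega)).2.2
      omega
    refine ⟨fun t => kT Φ C (τ t) m, fun t => (τ t).h m,
      fun t ht => kT_iso H hC (by omega) (hT t ht), Or.inl ⟨fun t ht => ⟨?_, ?_, k3 t ht⟩, ?_⟩⟩
    · have := k2 t ht
      have := blo' (φ t + 1) (by have := (hφ t ht).1; omega)
      show ja ≤ kT Φ C (τ t) m
      omega
    · have := k1 t ht
      have := bjb (φ t)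
      show kT Φ C (τ t) m ≤ jb
      omega
    · intro t ht
      have e1 := k1 (t + 1) (by omega)
      have e2 := k2 t (by omega)
      have e3 := hφ2 t ht
      have e4 := (hφ (t + 1) (by omega)).1
      have e5 : b (φ (t + 1)) ≤ b (φ t + 1 + 1) := bmono _ _ (by omega)
      have e6 := bgap (φ t + 1) (by omega)
      have iso1 := kT_iso H (C := C) (m := m) hC (by omega) (hT (t + 1) (by omega))
      have iso0 := kT_iso H (C := C) (m := m) hC (by omega) (hT t (by omega))
      refine ⟨?_, ?_, (τ (t + 1)).sub fun k => m + 3 + k,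
        H.shift (hτ (t + 1) (by omega)) (by omega), fun k hk => ?_⟩
      · show kT Φ C (τ (t + 1)) m + L ≤ kT Φ C (τ t) m
        omega
      · show (τ t).h m ≤ (τ (t + 1)).h m
        by_contra hn
        push Not at hn
        refine (iso1 (τ t) (H.pre (hτ t (by omega)) (by omega))).1 ⟨fun k hk => ?_, fun k hk => ?_⟩
        · have h5 := hτ2 t (by omega) k (by omega)
          have h6 := k3 (t + 1) (by omega)
          have h7 := bjb (φ t)
          constructor
          · show kT Φ C (τ (t + 1)) m ≤ (τ t).f k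
            omega
          · show (τ t).f k < (τ (t + 1)).h m
            omega
        · rintro ⟨-, h5⟩
          have h6 := H.hhi _ (τ t) (hτ t (by omega)) k m (by omega) (by omega)
          change (τ t).g k < (τ (t + 1)).h m at h5
          omega
      · have h5 := hτ2 (t + 1) (by omega) (m + 3 + k) (by omega)
        have h6 := bjb (φ (t + 1))
        have h7 := blo' (φ (t + 1) + 1) (by omega)
        refine ⟨?_, ?_, ?_, ?_⟩
        · show ja ≤ (τ (t + 1)).f (m + 3 + k)
          omega
        · show (τ (t + 1)).f (m + 3 + k) < jb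
          omega
        · show (τ t).h m ≤ (τ (t + 1)).g (m + 3 + k)
          by_contra hn
          push Not at hn
          refine (iso0 ((τ (t + 1)).sub fun k => m + 3 + D + k)
            (H.shift (hτ (t + 1) (by omega)) (by omega))).2 ⟨fun l hl => ?_, fun l hl => ?_⟩
          · rintro ⟨h8, -⟩
            have h9 := hτ2 (t + 1) (by omega) (m + 3 + D + l) (by omega)
            change kT Φ C (τ t) m ≤ (τ (t + 1)).f (m + 3 + D + l) at h8
            omega
          · have h9 := hτ2 (t + 1) (by omega) (m + 3 + D + l) (by omega)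
            have h10 := H.dec _ (τ (t + 1)) (hτ (t + 1) (by omega)) (m + 3 + k) (m + 3 + D + l)
              (by omega) (by omega)
            have h11 := k1 t (by omega)
            have h12 := bjb (φ t)
            constructor
            · show kT Φ C (τ t) m ≤ (τ (t + 1)).g (m + 3 + D + l)
              omega
            · show (τ (t + 1)).g (m + 3 + D + l) < (τ t).h m
              omega
        · show (τ (t + 1)).g (m + 3 + k) < (τ (t + 1)).h m
          exact H.hlo _ _ (hτ (t + 1) (by omega)) m (m + 3 + k) (by omega) (by omega)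
  · -- DOWN
    have hdn : ∀ t ≤ K, dn (φ t) := fun t ht =>
      (hud (φ t) (hφ t ht).1).resolve_left (hφ t ht).2
    choose! τ hτ hτ2 using hdn
    have hT : ∀ t ≤ K, Φ (m + 3) (τ t) := fun t ht => H.pre (hτ t ht) (by omega)
    have k1 : ∀ t ≤ K, kT Φ C (τ t) m ≤ ja := fun t ht => by
      have := kT_le Φ C (τ t) m
      have := (hτ2 t ht (m + 2) (by omega)).2.2
      omega
    have k2 : ∀ t ≤ K, b (φ t + 1) < (τ t).h m := fun t ht => by
      have := H.hlo _ (τ t) (hτ t ht) m (m + 1) (by omega) (by omega)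
      have := (hτ2 t ht (m + 1) (by omega)).1
      omega
    have k3 : ∀ t ≤ K, (τ t).h m < b (φ t) := fun t ht => by
      have := H.hhi _ (τ t) (hτ t ht) (m - 1) m (by omega) (by omega)
      have := (hτ2 t ht (m - 1) (by omega)).2.1
      omega
    refine ⟨fun t => kT Φ C (τ t) m, fun t => (τ t).h m,
      fun t ht => kT_iso H hC (by omega) (hT t ht), Or.inr ⟨fun t ht => ⟨k1 t ht, ?_, ?_⟩, ?_⟩⟩
    · have := k2 t ht
      have := blo' (φ t + 1) (by have := (hφ t ht).1; omega)
      show ja ≤ (τ t).h m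
      omega
    · have := k3 t ht
      have := bjb (φ t)
      show (τ t).h m ≤ jb
      omega
    · intro t ht
      have e1 := k3 (t + 1) (by omega)
      have e2 := k2 t (by omega)
      have e3 := hφ2 t ht
      have e4 := (hφ (t + 1) (by omega)).1
      have e5 : b (φ (t + 1)) ≤ b (φ t + 1 + 1) := bmono _ _ (by omega)
      have e6 := bgap (φ t + 1) (by omega)
      have iso1 := kT_iso H (C := C) (m := m) hC (by omega) (hT (t + 1) (by omega))
      have iso0 := kT_iso H (C := C) (m := m) hC (by omega) (hT t (by omega))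
      refine ⟨?_, ?_, (τ t).sub fun k => m + 3 + k,
        H.shift (hτ t (by omega)) (by omega), fun k hk => ?_⟩
      · show (τ (t + 1)).h m + L ≤ (τ t).h m
        omega
      · show kT Φ C (τ t) m ≤ kT Φ C (τ (t + 1)) m
        by_contra hn
        push Not at hn
        refine (iso0 (τ (t + 1)) (H.pre (hτ (t + 1) (by omega)) (by omega))).2
          ⟨fun k hk => ?_, fun k hk => ?_⟩
        · rintro ⟨h5, -⟩
          change kT Φ C (τ t) m ≤ (τ (t + 1)).f k at h5
          have h6 := kT_gt H (C := C) (m := m) hC (by omega) (hT (t + 1) (by omega))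
          have h7 : (τ (t + 1)).f k ≤ (τ (t + 1)).f (m - c - 1) := by
            rcases Nat.lt_or_ge k (m - c - 1) with h | h
            · exact (H.inc _ _ (hτ (t + 1) (by omega)) _ _ h (by omega)).le
            · have : k = m - c - 1 := by omega
              rw [this]
          omega
        · have h5 := hτ2 (t + 1) (by omega) k (by omega)
          have h6 := k1 t (by omega)
          have h7 := blo' (φ (t + 1) + 1) (by omega)
          constructor
          · show kT Φ C (τ t) m ≤ (τ (t + 1)).g k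
            omega
          · show (τ (t + 1)).g k < (τ t).h m
            omega
      · have h5 := hτ2 t (by omega) (m + 3 + k) (by omega)
        have h6 := bjb (φ t)
        have h7 := blo' (φ t + 1) (by omega)
        refine ⟨?_, ?_, ?_, ?_⟩
        · show ja ≤ (τ t).g (m + 3 + k)
          omega
        · show (τ t).g (m + 3 + k) < jb
          omega
        · show kT Φ C (τ t) m ≤ (τ t).f (m + 3 + k)
          have h8 := kT_le Φ C (τ t) m
          have h9 := H.inc _ (τ t) (hτ t (by omega)) (m + 2) (m + 3 + k) (by omega) (by omega)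
          omega
        · show (τ t).f (m + 3 + k) < kT Φ C (τ (t + 1)) m
          by_contra hn
          push Not at hn
          refine (iso1 ((τ t).sub fun k => m + 3 + D + k)
            (H.shift (hτ t (by omega)) (by omega))).1 ⟨fun l hl => ?_, fun l hl => ?_⟩
          · have h9 := hτ2 t (by omega) (m + 3 + D + l) (by omega)
            have h10 := H.inc _ (τ t) (hτ t (by omega)) (m + 3 + k) (m + 3 + D + l)
              (by omega) (by omega)
            have h11 := k2 (t + 1) (by omega)
            have h12 := blo' (φ (t + 1) + 1) (by omega)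
            constructor
            · show kT Φ C (τ (t + 1)) m ≤ (τ t).f (m + 3 + D + l)
              omega
            · show (τ t).f (m + 3 + D + l) < (τ (t + 1)).h m
              omega
          · rintro ⟨-, h8⟩
            have h9 := hτ2 t (by omega) (m + 3 + D + l) (by omega)
            change (τ t).g (m + 3 + D + l) < (τ (t + 1)).h m at h8
            omega

end

end Pool.Agent.MPd439b2.EG
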